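import Mathlib
import Pool.Agent.Q269.SigmaTwo.Count

/-!
# `limsup M(n) = 4` for the equation `σ₂ = σ_n`

For `n ≥ 3` let `S n` be the set of `n`-tuples `x_1 ≤ ... ≤ x_n` of positive integers with
`σ₂(x) = σ_n(x)`, and let `M n` be the least number of distinct entries of a tuple in `S n`.
We prove that `M n ≤ 4` for all `n ≥ 3`, that `M n = 4` for all `n` outside a set of natural
density zero, and hence that `limsup M n = 4`.
-/

set_option autoImplicit false

namespace Pool.Agent.Results.MP_2b461e_nt.LimsupFour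

open Pool.Agent.Q269.SigmaTwo Finset

/-- `σ_i`, the `i`-th elementary symmetric polynomial of the entries of `x`. -/
def sigma {n : ℕ} (x : Fin n → ℕ) (i : ℕ) : ℕ :=
  ∑ s ∈ Finset.powersetCard i (Finset.univ : Finset (Fin n)), ∏ j ∈ s, x j

/-- `S(n)`: the `n`-tuples `x_1 ≤ ... ≤ x_n` of positive integers with `σ₂ = σ_n`. -/
def S (n : ℕ) : Set (Fin n → ℕ) :=
  {x | Monotone x ∧ (∀ i, 1 ≤ x i) ∧ sigma x 2 = sigma x n}

/-- `M(n)`: the least number of distinct entries of a tuple in `S(n)`. -/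
noncomputable def M (n : ℕ) : ℕ :=
  sInf {k : ℕ | ∃ x ∈ S n, (Finset.univ.image x).card = k}

theorem sigma_n {n : ℕ} (x : Fin n → ℕ) : sigma x n = ∏ i, x i := by
  unfold sigma
  have h : Finset.powersetCard n (Finset.univ : Finset (Fin n)) = {Finset.univ} := by
    have := Finset.powersetCard_self (Finset.univ : Finset (Fin n))
    rwa [Finset.card_fin] at this
  rw [h, Finset.sum_singleton]

theorem esymm_one (s : Multiset ℕ) : s.esymm 1 = s.sum := by
  induction s using Multiset.induction_on with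
  | empty => rfl
  | cons a s ih =>
    unfold Multiset.esymm at ih ⊢
    rw [Multiset.powersetCard_cons, Multiset.map_add, Multiset.sum_add, ih,
      Multiset.powersetCard_zero_left]
    simp [add_comm]

theorem esymm_two (s : Multiset ℕ) :
    2 * s.esymm 2 + (s.map (fun a => a ^ 2)).sum = s.sum ^ 2 := by
  induction s using Multiset.induction_on with
  | empty => rfl
  | cons a s ih =>
    have h1 : (a ::ₘ s).esymm 2 = s.esymm 2 + a * s.esymm 1 := by
      unfold Multiset.esymm
      rw [Multiset.powersetCard_cons, Multiset.map_add, Multiset.sum_add, Multiset.map_map]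
      congr 1
      rw [← Multiset.sum_map_mul_left]
      apply congrArg
      apply Multiset.map_congr rfl
      intro t _
      simp
    rw [h1, esymm_one, Multiset.map_cons, Multiset.sum_cons, Multiset.sum_cons]
    have : (a + s.sum) ^ 2 = s.sum ^ 2 + 2 * (a * s.sum) + a ^ 2 := by ring
    rw [this, ← ih]
    ring

theorem sigma_two {n : ℕ} (x : Fin n → ℕ) : 2 * sigma x 2 + ∑ i, x i ^ 2 = (∑ i, x i) ^ 2 := by
  have h := esymm_two (Finset.univ.val.map x)
  rw [Finset.esymm_map_val, Multiset.map_map] at h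
  exact h

/-! ### Upper bound -/

theorem upper {n : ℕ} (hn : 3 ≤ n) : ∃ x ∈ S n, (Finset.univ.image x).card ≤ 4 := by
  obtain ⟨k, rfl⟩ := Nat.exists_eq_add_of_le' hn
  obtain ⟨y, hy⟩ : ∃ y, 2 * y = (k + 3) * (3 * k + 4) := by
    have : Even ((k + 3) * (3 * k + 4)) := by
      rcases Nat.even_or_odd k with h | h
      · apply Even.mul_left
        obtain ⟨c, rfl⟩ := h
        exact ⟨3 * c + 2, by ring⟩
      · apply Even.mul_right
        obtain ⟨c, rfl⟩ := h
        exact ⟨c + 2, by ring⟩
    obtain ⟨c, hc⟩ := this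
    exact ⟨c, by omega⟩
  let x : Fin (k + 3) → ℕ := fun l => if l.val < k then 1 else if l.val = k then 2 else
    if l.val = k + 1 then k + 3 else y
  have hy3 : k + 3 ≤ y := by
    have : (k + 3) * 4 ≤ (k + 3) * (3 * k + 4) := Nat.mul_le_mul_left _ (by omega)
    omega
  have hpos : ∀ l, 1 ≤ x l := by
    intro l
    simp only [x]
    split_ifs <;> omega
  have hmono : Monotone x := by
    intro a b hab
    have hab' : a.val ≤ b.val := hab
    have hb := b.isLt
    simp only [x]
    split_ifs <;> omega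
  have hsum : ∀ f : ℕ → ℕ, ∑ l, f (x l) = k * f 1 + f 2 + f (k + 3) + f y := by
    intro f
    rw [Fin.sum_univ_castSucc, Fin.sum_univ_castSucc, Fin.sum_univ_castSucc]
    have h1 : ∀ l : Fin k, x (Fin.castSucc (Fin.castSucc (Fin.castSucc l))) = 1 := by
      intro l
      simp [x]
    have h2 : x (Fin.castSucc (Fin.castSucc (Fin.last k))) = 2 := by simp [x]
    have h3 : x (Fin.castSucc (Fin.last (k + 1))) = k + 3 := by simp [x]
    have h4 : x (Fin.last (k + 2)) = y := by simp [x]
    rw [h2, h3, h4]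
    simp [h1]
  have hprod : ∏ l, x l = 2 * (k + 3) * y := by
    rw [Fin.prod_univ_castSucc, Fin.prod_univ_castSucc, Fin.prod_univ_castSucc]
    have h1 : ∀ l : Fin k, x (Fin.castSucc (Fin.castSucc (Fin.castSucc l))) = 1 := by
      intro l
      simp [x]
    have h2 : x (Fin.castSucc (Fin.castSucc (Fin.last k))) = 2 := by simp [x]
    have h3 : x (Fin.castSucc (Fin.last (k + 1))) = k + 3 := by simp [x]
    have h4 : x (Fin.last (k + 2)) = y := by simp [x]
    rw [h2, h3, h4]
    simp [h1]
  refine ⟨x, ⟨hmono, hpos, ?_⟩, ?_⟩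
  · rw [sigma_n, hprod]
    have h := sigma_two x
    rw [hsum (fun a => a ^ 2)] at h
    have h' : ∑ l, x l = k * 1 + 2 + (k + 3) + y := hsum (fun a => a)
    rw [h'] at h
    have h2 : (k * 1 + 2 + (k + 3) + y) ^ 2 = 2 * (2 * (k + 3) * y)
        + (k * 1 ^ 2 + 2 ^ 2 + (k + 3) ^ 2 + y ^ 2) := by
      have e : (k * 1 + 2 + (k + 3) + y) ^ 2 = 4 * k ^ 2 + 20 * k + 25 + 4 * k * y + 5 * (2 * y)
        + y ^ 2 := by ring
      have e' : 2 * (2 * (k + 3) * y) + (k * 1 ^ 2 + 2 ^ 2 + (k + 3) ^ 2 + y ^ 2)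
        = 4 * k * y + 6 * (2 * y) + (k ^ 2 + 7 * k + 13) + y ^ 2 := by ring
      rw [e, e', hy]
      ring
    omega
  · have hsub : Finset.univ.image x ⊆ {1, 2, k + 3, y} := by
      intro v hv
      obtain ⟨l, _, rfl⟩ := Finset.mem_image.1 hv
      simp only [x, Finset.mem_insert, Finset.mem_singleton]
      split_ifs <;> simp
    exact (Finset.card_le_card hsub).trans Finset.card_le_four

theorem M_le {n : ℕ} (hn : 3 ≤ n) : M n ≤ 4 := by
  obtain ⟨x, hx, hc⟩ := upper hn
  have hmem : (Finset.univ.image x).card ∈ {k : ℕ | ∃ x ∈ S n, (Finset.univ.image x).card = k} :=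
    ⟨x, hx, rfl⟩
  exact (Nat.sInf_le hmem).trans hc

/-! ### Few non-ones -/

theorem non_ones {n : ℕ} {x : Fin n → ℕ} (hx : x ∈ S n) :
    2 ^ (Finset.univ.filter (fun l => x l ≠ 1)).card ≤ 4 * n.choose 2 := by
  obtain ⟨_, hpos, heq⟩ := hx
  rw [sigma_n] at heq
  set k := (Finset.univ.filter (fun l => x l ≠ 1)).card with hk
  have hPpos : 0 < ∏ i, x i := Finset.prod_pos (fun i _ => hpos i)
  have hterm : ∀ t ∈ Finset.powersetCard 2 (Finset.univ : Finset (Fin n)),
      (∏ j ∈ t, x j) * 2 ^ k ≤ 4 * ∏ i, x i := by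
    intro t ht
    rw [Finset.mem_powersetCard] at ht
    have h1 : ∏ i, x i = (∏ i ∈ Finset.univ \ t, x i) * ∏ i ∈ t, x i :=
      (Finset.prod_sdiff ht.1).symm
    have h2 : 2 ^ ((Finset.univ \ t).filter (fun l => x l ≠ 1)).card
        ≤ ∏ i ∈ Finset.univ \ t, x i := by
      calc 2 ^ ((Finset.univ \ t).filter (fun l => x l ≠ 1)).card
          ≤ ∏ i ∈ (Finset.univ \ t).filter (fun l => x l ≠ 1), x i := by
            apply Finset.pow_card_le_prod
            intro l hl
            have := (Finset.mem_filter.1 hl).2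
            have := hpos l
            omega
        _ ≤ ∏ i ∈ Finset.univ \ t, x i :=
            Finset.prod_le_prod_of_subset_of_one_le' (Finset.filter_subset _ _)
              (fun i _ _ => hpos i)
    have h3 : k ≤ ((Finset.univ \ t).filter (fun l => x l ≠ 1)).card + 2 := by
      have hsub : Finset.univ.filter (fun l => x l ≠ 1)
          ⊆ (Finset.univ \ t).filter (fun l => x l ≠ 1) ∪ t := by
        intro l hl
        by_cases hlt : l ∈ t
        · exact Finset.mem_union_right _ hlt
        · apply Finset.mem_union_left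
          simp only [Finset.mem_filter, Finset.mem_sdiff, Finset.mem_univ, true_and] at hl ⊢
          exact ⟨hlt, hl⟩
      have := (Finset.card_le_card hsub).trans (Finset.card_union_le _ _)
      rw [ht.2] at this
      exact this
    have h4 : 2 ^ k ≤ 4 * 2 ^ ((Finset.univ \ t).filter (fun l => x l ≠ 1)).card := by
      calc 2 ^ k ≤ 2 ^ (((Finset.univ \ t).filter (fun l => x l ≠ 1)).card + 2) :=
            Nat.pow_le_pow_right (by norm_num) h3
        _ = _ := by rw [pow_add]; ring
    calc (∏ j ∈ t, x j) * 2 ^ k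
        ≤ (∏ j ∈ t, x j) * (4 * ∏ i ∈ Finset.univ \ t, x i) :=
          Nat.mul_le_mul_left _ (h4.trans (Nat.mul_le_mul_left _ h2))
      _ = 4 * ∏ i, x i := by rw [h1]; ring
  have hsum : sigma x 2 * 2 ^ k ≤ n.choose 2 * (4 * ∏ i, x i) := by
    unfold sigma
    rw [Finset.sum_mul]
    have := Finset.sum_le_card_nsmul _ _ _ hterm
    rwa [Finset.card_powersetCard, Finset.card_fin, smul_eq_mul] at this
  rw [heq] at hsum
  have : (∏ i, x i) * 2 ^ k ≤ (∏ i, x i) * (4 * n.choose 2) := by
    calc (∏ i, x i) * 2 ^ k ≤ n.choose 2 * (4 * ∏ i, x i) := hsum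
      _ = _ := by ring
  exact Nat.le_of_mul_le_mul_left this hPpos

theorem two_pow_gt {n : ℕ} (hn : 6 ≤ n) : 4 * n.choose 2 < 2 ^ n := by
  have h : ∀ n : ℕ, 6 ≤ n → 2 * (n * (n - 1)) < 2 ^ n := by
    intro n hn
    induction n, hn using Nat.le_induction with
    | base => norm_num
    | succ k hk ih =>
      rw [pow_succ]
      obtain ⟨c, rfl⟩ := Nat.exists_eq_add_of_le hk
      have e1 : 2 * ((6 + c + 1) * (6 + c + 1 - 1)) = 2 * ((c + 7) * (c + 6)) := by
        congr 1
        have : 6 + c + 1 - 1 = c + 6 := by omega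
        rw [this]; ring
      have e2 : 2 * ((6 + c) * (6 + c - 1)) = 2 * ((c + 6) * (c + 5)) := by
        congr 1
        have : 6 + c - 1 = c + 5 := by omega
        rw [this]; ring
      rw [e2] at ih
      rw [e1]
      have : 2 * ((c + 7) * (c + 6)) ≤ 2 * ((c + 6) * (c + 5)) * 2 := by nlinarith
      omega
  have h2 := Nat.choose_two_right n
  have h3 := h n hn
  have h4 : n.choose 2 * 2 ≤ n * (n - 1) := by
    rw [h2]; exact Nat.div_mul_le_self _ _
  omega

/-- The reduction of a tuple with at most three distinct entries to the equation `E`. -/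
theorem three_values {n : ℕ} (hn : 6 ≤ n) {x : Fin n → ℕ} (hx : x ∈ S n)
    (hc : (Finset.univ.image x).card ≤ 3) :
    ∃ i j a b m, E i j a b m ∧ 1 ≤ m ∧ n = m + i + j ∧ 2 ≤ a ∧ 2 ≤ b ∧
      2 ^ (i + j) ≤ 4 * n.choose 2 := by
  have hno := non_ones hx
  obtain ⟨_, hpos, heq⟩ := hx
  -- some entry is one
  have hone : 1 ∈ Finset.univ.image x := by
    by_contra hcon
    have hall : Finset.univ.filter (fun l => x l ≠ 1) = Finset.univ := by
      apply Finset.filter_true_of_mem
      intro l _ hl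
      exact hcon (Finset.mem_image.2 ⟨l, Finset.mem_univ _, hl⟩)
    rw [hall, Finset.card_fin] at hno
    have := two_pow_gt hn
    omega
  have hc2 : ((Finset.univ.image x).erase 1).card ≤ 2 := by
    rw [Finset.card_erase_of_mem hone]; omega
  -- two values besides one
  obtain ⟨a, b, ha, hb, hab, hval⟩ : ∃ a b, 2 ≤ a ∧ 2 ≤ b ∧ a ≠ b ∧
      ∀ l, x l = 1 ∨ x l = a ∨ x l = b := by
    have hmem : ∀ l, x l ≠ 1 → x l ∈ (Finset.univ.image x).erase 1 := fun l hl =>
      Finset.mem_erase.2 ⟨hl, Finset.mem_image.2 ⟨l, Finset.mem_univ _, rfl⟩⟩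
    have hge : ∀ v ∈ (Finset.univ.image x).erase 1, 2 ≤ v := by
      intro v hv
      rw [Finset.mem_erase] at hv
      obtain ⟨hv1, hv2⟩ := hv
      obtain ⟨l, _, rfl⟩ := Finset.mem_image.1 hv2
      have := hpos l
      omega
    have h3 : ((Finset.univ.image x).erase 1).card = 0 ∨
        ((Finset.univ.image x).erase 1).card = 1 ∨
        ((Finset.univ.image x).erase 1).card = 2 := by omega
    rcases h3 with h | h | h
    · rw [Finset.card_eq_zero] at h
      refine ⟨2, 3, le_rfl, by norm_num, by norm_num, fun l => Or.inl ?_⟩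
      by_contra hl
      have := hmem l hl
      rw [h] at this
      exact Finset.notMem_empty _ this
    · obtain ⟨a, ha⟩ := Finset.card_eq_one.1 h
      have ha2 : 2 ≤ a := hge a (by rw [ha]; simp)
      refine ⟨a, a + 1, ha2, by omega, by omega, fun l => ?_⟩
      by_cases hl : x l = 1
      · exact Or.inl hl
      · right; left
        have := hmem l hl
        rw [ha] at this
        simpa using this
    · obtain ⟨a, b, hab, hs⟩ := Finset.card_eq_two.1 h
      refine ⟨a, b, hge a (by rw [hs]; simp), hge b (by rw [hs]; simp), hab, fun l => ?_⟩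
      by_cases hl : x l = 1
      · exact Or.inl hl
      · right
        have := hmem l hl
        rw [hs] at this
        simpa using this
  set m := (Finset.univ.filter (fun l => x l = 1)).card with hm
  set i := (Finset.univ.filter (fun l => x l = a)).card with hi
  set j := (Finset.univ.filter (fun l => x l = b)).card with hj
  have hsum : ∀ f : ℕ → ℕ, ∑ l, f (x l) = m * f 1 + i * f a + j * f b := by
    intro f
    have h1 : ∀ l, f (x l) = (if x l = 1 then f 1 else 0) + (if x l = a then f a else 0)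
        + (if x l = b then f b else 0) := by
      intro l
      rcases hval l with h | h | h
      · rw [h, if_pos rfl, if_neg (by omega), if_neg (by omega)]; ring
      · rw [h, if_neg (by omega), if_pos rfl, if_neg hab]; ring
      · rw [h, if_neg (by omega), if_neg hab.symm, if_pos rfl]; ring
    rw [Finset.sum_congr rfl (fun l _ => h1 l), Finset.sum_add_distrib, Finset.sum_add_distrib,
      ← Finset.sum_filter, ← Finset.sum_filter, ← Finset.sum_filter, Finset.sum_const,
      Finset.sum_const, Finset.sum_const]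
    simp only [smul_eq_mul, hm, hi, hj]
  have hprod : ∏ l, x l = a ^ i * b ^ j := by
    have h1 : ∀ l, x l = (if x l = a then a else 1) * (if x l = b then b else 1) := by
      intro l
      rcases hval l with h | h | h
      · rw [h, if_neg (by omega), if_neg (by omega)]
      · rw [h, if_pos rfl, if_neg hab, mul_one]
      · rw [h, if_neg hab.symm, if_pos rfl, one_mul]
    rw [Finset.prod_congr rfl (fun l _ => h1 l), Finset.prod_mul_distrib,
      ← Finset.prod_filter, ← Finset.prod_filter, Finset.prod_const, Finset.prod_const]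
  have hn' : n = m + i + j := by
    have h := hsum (fun _ => 1)
    simp only [mul_one, Finset.sum_const, Finset.card_fin, smul_eq_mul] at h
    exact h
  have hm1 : 1 ≤ m := by
    obtain ⟨l, _, hl⟩ := Finset.mem_image.1 hone
    exact Finset.card_pos.2 ⟨l, Finset.mem_filter.2 ⟨Finset.mem_univ _, hl⟩⟩
  have hij : (Finset.univ.filter (fun l => x l ≠ 1)).card = i + j := by
    have h := Finset.card_filter_add_card_filter_not (s := (Finset.univ : Finset (Fin n)))
      (fun l => x l = 1)
    rw [Finset.card_fin] at h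
    have h' : (Finset.univ.filter (fun l => x l ≠ 1)).card
      = (Finset.univ.filter (fun l => ¬ x l = 1)).card := rfl
    omega
  refine ⟨i, j, a, b, m, ?_, hm1, hn', ha, hb, ?_⟩
  · unfold E
    have h := sigma_two x
    rw [heq, sigma_n, hprod, hsum (fun v => v ^ 2)] at h
    have h' : ∑ l, x l = m * 1 + i * a + j * b := hsum (fun v => v)
    rw [h'] at h
    calc 2 * a ^ i * b ^ j + m + i * a ^ 2 + j * b ^ 2
        = 2 * (a ^ i * b ^ j) + (m * 1 ^ 2 + i * a ^ 2 + j * b ^ 2) := by ring
      _ = (m * 1 + i * a + j * b) ^ 2 := h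
      _ = _ := by ring
  · rw [← hij]; exact hno

theorem exceptional {r n : ℕ} (hr : 2 ≤ r) (hn : 6 ≤ n) (hnX : n ≤ 2 ^ (24 * r)) (hM : M n ≠ 4) :
    T1 r n ∨ T2 r n ∨ T3 r n := by
  have hM3 : M n ≤ 3 := by
    have := M_le (by omega : 3 ≤ n)
    omega
  have hne : {k : ℕ | ∃ x ∈ S n, (Finset.univ.image x).card = k}.Nonempty := by
    obtain ⟨x, hx, _⟩ := upper (by omega : 3 ≤ n)
    exact ⟨_, x, hx, rfl⟩
  obtain ⟨x, hx, hxc⟩ := Nat.sInf_mem hne
  have hxc' : (Finset.univ.image x).card ≤ 3 := by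
    rw [hxc]; exact hM3
  obtain ⟨i, j, a, b, m, hE, hm, hnm, ha, hb, hk⟩ := three_values hn hx hxc'
  refine cases_E hr hE hm hnm hn hnX ha hb ?_
  by_contra hcon
  have h1 : 2 ^ (48 * r + 2) ≤ 2 ^ (i + j) := Nat.pow_le_pow_right (by norm_num) (by omega)
  have h2 : n.choose 2 ≤ n ^ 2 := by
    rw [Nat.choose_two_right]
    calc n * (n - 1) / 2 ≤ n * (n - 1) := Nat.div_le_self _ _
      _ ≤ n * n := Nat.mul_le_mul_left _ (by omega)
      _ = n ^ 2 := by ring
  have h2' : 2 * n.choose 2 < n ^ 2 := by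
    have h4 : n.choose 2 * 2 ≤ n * (n - 1) := by
      rw [Nat.choose_two_right]; exact Nat.div_mul_le_self _ _
    have h5 : n * (n - 1) < n * n := Nat.mul_lt_mul_of_pos_left (by omega) (by omega)
    have h6 : n ^ 2 = n * n := by ring
    omega
  have h3 : n ^ 2 ≤ 2 ^ (48 * r) := by
    calc n ^ 2 ≤ (2 ^ (24 * r)) ^ 2 := Nat.pow_le_pow_left hnX 2
      _ = 2 ^ (48 * r) := by rw [← pow_mul]; ring_nf
  have h4 : 2 ^ (48 * r + 2) = 4 * 2 ^ (48 * r) := by rw [pow_add]; ring
  omega

theorem count_exceptional : ∃ A : ℕ, ∀ r : ℕ, 2 ≤ r →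
    ((Finset.range (2 ^ (24 * r))).filter (fun n => M n ≠ 4)).card
      ≤ A * r ^ 2 * 2 ^ (23 * r) + 6 := by
  obtain ⟨C, hC1, hC⟩ := divisor_bound
  refine ⟨30000 * C, fun r hr => ?_⟩
  have hsub : (Finset.range (2 ^ (24 * r))).filter (fun n => M n ≠ 4) ⊆
      ((Finset.range (2 ^ (24 * r))).filter (fun n => 6 ≤ n ∧ M n ≠ 4)) ∪ Finset.range 6 := by
    intro n hn
    rw [Finset.mem_filter] at hn
    by_cases h6 : 6 ≤ n
    · exact Finset.mem_union_left _ (Finset.mem_filter.2 ⟨hn.1, h6, hn.2⟩)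
    · exact Finset.mem_union_right _ (Finset.mem_range.2 (by omega))
  have h1 := (Finset.card_le_card hsub).trans (Finset.card_union_le _ _)
  have h2 := count_total hC1 hC hr
    ((Finset.range (2 ^ (24 * r))).filter (fun n => 6 ≤ n ∧ M n ≠ 4)) (fun n hn => by
      rw [Finset.mem_filter, Finset.mem_range] at hn
      exact exceptional hr hn.2.1 hn.1.le hn.2.2)
  rw [Finset.card_range] at h1
  omega

theorem density : Filter.Tendsto (fun N : ℕ =>
    (((Finset.range N).filter (fun n => M n ≠ 4)).card : ℝ) / N) Filter.atTop (nhds 0) := by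
  obtain ⟨A, hA⟩ := count_exceptional
  let g : ℕ → ℝ := fun r => 2 ^ 24 * ((A : ℝ) * ((r : ℝ) ^ 2 / 2 ^ r) + 6 * ((r : ℝ) ^ 0 / 2 ^ r))
  have hg : Filter.Tendsto g Filter.atTop (nhds 0) := by
    have h1 := tendsto_pow_const_div_const_pow_of_one_lt 2 (by norm_num : (1 : ℝ) < 2)
    have h2 := tendsto_pow_const_div_const_pow_of_one_lt 0 (by norm_num : (1 : ℝ) < 2)
    have h3 := ((h1.const_mul (A : ℝ)).add (h2.const_mul 6)).const_mul (2 ^ 24 : ℝ)
    simpa [g] using h3
  have hlog : Filter.Tendsto (fun N : ℕ => Nat.log (2 ^ 24) N + 1) Filter.atTop Filter.atTop := by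
    apply Filter.tendsto_atTop_atTop_of_monotone
    · intro a b hab
      exact Nat.add_le_add_right (Nat.log_mono_right hab) 1
    · intro b
      refine ⟨(2 ^ 24) ^ b, ?_⟩
      rw [Nat.log_pow (by norm_num)]
      omega
  have hcomp := hg.comp hlog
  refine squeeze_zero' (Filter.Eventually.of_forall fun N => by positivity) ?_ hcomp
  filter_upwards [Filter.eventually_ge_atTop (2 ^ 24)] with N hN
  obtain ⟨r, hr⟩ : ∃ r, r = Nat.log (2 ^ 24) N + 1 := ⟨_, rfl⟩
  have hgoal : (g ∘ fun N : ℕ => Nat.log (2 ^ 24) N + 1) N = g r := by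
    rw [hr]; rfl
  rw [hgoal]
  have hN0 : N ≠ 0 := by
    intro h; rw [h] at hN; norm_num at hN
  have hr2 : 2 ≤ r := by
    have : 1 ≤ Nat.log (2 ^ 24) N := by
      apply Nat.le_log_of_pow_le (by norm_num)
      simpa using hN
    omega
  have hlow : 2 ^ (24 * (r - 1)) ≤ N := by
    have : (2 ^ 24) ^ Nat.log (2 ^ 24) N ≤ N := Nat.pow_log_le_self _ hN0
    rw [← pow_mul] at this
    have e : r - 1 = Nat.log (2 ^ 24) N := by omega
    rw [e]; exact this
  have hup : N ≤ 2 ^ (24 * r) := by
    have : N < (2 ^ 24) ^ (Nat.log (2 ^ 24) N + 1) := Nat.lt_pow_succ_log_self (by norm_num) N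
    rw [← hr, ← pow_mul] at this
    exact this.le
  have hcount : ((Finset.range N).filter (fun n => M n ≠ 4)).card
      ≤ A * r ^ 2 * 2 ^ (23 * r) + 6 := by
    refine (Finset.card_le_card ?_).trans (hA r hr2)
    exact Finset.filter_subset_filter _ (Finset.range_subset_range.2 hup)
  have hlowR : (2 : ℝ) ^ (24 * (r - 1)) ≤ N := by exact_mod_cast hlow
  have hcountR : (((Finset.range N).filter (fun n => M n ≠ 4)).card : ℝ)
      ≤ A * r ^ 2 * 2 ^ (23 * r) + 6 := by exact_mod_cast hcount
  have hpow : (2 : ℝ) ^ (24 * (r - 1)) * 2 ^ 24 = 2 ^ (23 * r) * 2 ^ r := by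
    rw [← pow_add, ← pow_add]; congr 1; omega
  have h2r : (0 : ℝ) < 2 ^ r := by positivity
  have h23 : (1 : ℝ) ≤ 2 ^ (23 * r) := one_le_pow₀ (by norm_num)
  calc (((Finset.range N).filter (fun n => M n ≠ 4)).card : ℝ) / N
      ≤ (A * r ^ 2 * 2 ^ (23 * r) + 6) / N := by gcongr
    _ ≤ (A * r ^ 2 * 2 ^ (23 * r) + 6) / 2 ^ (24 * (r - 1)) := by gcongr
    _ ≤ g r := by
        rw [div_le_iff₀ (by positivity)]
        have e : g r * 2 ^ (24 * (r - 1))
            = (A * r ^ 2 + 6) / 2 ^ r * (2 ^ (24 * (r - 1)) * 2 ^ 24) := by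
          simp only [g]
          field_simp
        rw [e, hpow]
        have e2 : ((A : ℝ) * r ^ 2 + 6) / 2 ^ r * (2 ^ (23 * r) * 2 ^ r)
            = (A * r ^ 2 + 6) * 2 ^ (23 * r) := by
          field_simp
        rw [e2]
        nlinarith

theorem infinite : {n : ℕ | M n = 4}.Infinite := by
  intro hfin
  obtain ⟨B, hB⟩ := hfin.bddAbove
  have hlt := (density.eventually (gt_mem_nhds (by norm_num : (0 : ℝ) < 1 / 2)))
  rw [Filter.eventually_atTop] at hlt
  obtain ⟨N0, hN0⟩ := hlt
  let N := max N0 (2 * B + 2)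
  have h1 := hN0 N (le_max_left _ _)
  have hNB : 2 * B + 2 ≤ N := le_max_right _ _
  have hcard : N - (B + 1) ≤ ((Finset.range N).filter (fun n => M n ≠ 4)).card := by
    have hsub : Finset.Ico (B + 1) N ⊆ (Finset.range N).filter (fun n => M n ≠ 4) := by
      intro n hn
      rw [Finset.mem_Ico] at hn
      rw [Finset.mem_filter, Finset.mem_range]
      refine ⟨hn.2, fun h => ?_⟩
      have : n ≤ B := hB h
      omega
    have := Finset.card_le_card hsub
    rwa [Nat.card_Ico] at this
  have hNpos : (0 : ℝ) < N := by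
    have : 0 < N := by omega
    exact_mod_cast this
  rw [div_lt_iff₀ hNpos] at h1
  have h2 : ((N - (B + 1) : ℕ) : ℝ) ≤ (((Finset.range N).filter (fun n => M n ≠ 4)).card : ℝ) := by
    exact_mod_cast hcard
  rw [Nat.cast_sub (by omega)] at h2
  have h3 : ((2 * B + 2 : ℕ) : ℝ) ≤ N := by exact_mod_cast hNB
  push_cast at h2 h3
  linarith

/-- **Main theorem.**  `M(n) ≤ 4` for all `n ≥ 3`; the set of `n` with `M(n) ≠ 4` has natural
density `0`; in particular `M(n) = 4` for infinitely many `n`; and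
`limsup_{n → ∞} M(n) = 4` (the upper limit taken in `ℕ ∪ {∞}`). -/
theorem result :
    (∀ n : ℕ, 3 ≤ n → M n ≤ 4) ∧
    Filter.Tendsto (fun N : ℕ =>
      (((Finset.range N).filter (fun n => M n ≠ 4)).card : ℝ) / N) Filter.atTop (nhds 0) ∧
    {n : ℕ | M n = 4}.Infinite ∧
    Filter.limsup (fun n : ℕ => (M n : ℕ∞)) Filter.atTop = 4 := by
  refine ⟨fun n hn => M_le hn, density, infinite, le_antisymm ?_ ?_⟩
  · apply Filter.limsup_le_of_le
    · isBoundedDefault
    · filter_upwards [Filter.eventually_ge_atTop 3] with n hn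
      exact_mod_cast M_le hn
  · apply Filter.le_limsup_of_frequently_le
    · have h := Nat.frequently_atTop_iff_infinite.2 infinite
      refine h.mono fun n hn => ?_
      have hn' : M n = 4 := hn
      rw [hn']
      norm_num
    · isBoundedDefault

end Pool.Agent.Results.MP_2b461e_nt.LimsupFour
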